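import Pool.Agent.KS6_62.ME.Bounds

/-!
# Winning attack sequences in m-eternal domination can be exponentially long

The definitions `Response`, `AttackerWins`, `Eternal`, `gammaM` (the m-eternal domination number)
and `DefeatedIn` are in `Pool.Agent.KS6_62.ME.Game`.

The graph (`Pool.Agent.KS6_62.ME.Graph`) has one region for every guard. The clock region has
three clock positions, which the attacker attacks cyclically. For every digit of a base `r`
counter there is a cell region; its guard is at a position that records the old digit and whether
the digit changes. Witnesses in the clock region force the counter to increase at every step, so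
the attacker wins, but only after `r ^ m` steps; and the defender profits from every other attack.
-/

set_option autoImplicit false

namespace Pool.Agent.Results.MP_18a4fa_co.ExponentialLength

open Pool.Agent.KS6_62.ME

/-- **The length of winning attack sequences in m-eternal domination.**
(1) For every `n ≥ 2500` some connected graph on `n` vertices is not defeated in `2 ^ ⌊n / 16⌋`
attacks, while every graph on `n` vertices is defeated in `n.choose (n / 2)` attacks.
(2) For all `k ≥ 3` and `n ≥ 161 (k - 2)` there are a connected graph on `n` vertices with m-eternal
domination number `k + 1` and a configuration of `k` guards from which the attacker cannot force a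
win within `⌊n / (7 (k - 2))⌋ ^ (k - 2) / 3` attacks.
(3) From every configuration of `k` guards, fewer than the m-eternal domination number, on a graph
with `n` vertices the attacker wins within `n.choose k` attacks. -/
theorem result :
    (∀ n : ℕ, 2500 ≤ n →
      (∃ G : SimpleGraph (Fin n), G.Connected ∧ ¬ DefeatedIn G (2 ^ (n / 16))) ∧
      ∀ G : SimpleGraph (Fin n), DefeatedIn G (n.choose (n / 2))) ∧
    (∀ k n : ℕ, 3 ≤ k → 161 * (k - 2) ≤ n →
      ∃ (G : SimpleGraph (Fin n)) (C : Finset (Fin n)), G.Connected ∧ gammaM G = k + 1 ∧
        C.card = k ∧ ¬ AttackerWins G ((n / (7 * (k - 2))) ^ (k - 2) / 3) C) ∧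
    (∀ (n : ℕ) (G : SimpleGraph (Fin n)) (C : Finset (Fin n)), C.card + 1 ≤ gammaM G →
      AttackerWins G (n.choose C.card) C) := by
  refine ⟨fun n hn => ⟨lower_exp n hn, fun G => ?_⟩, lower_poly, fun n G C hC => ?_⟩
  · simpa using defeatedIn_choose (G := G)
  · simpa using attackerWins_choose hC

end Pool.Agent.Results.MP_18a4fa_co.ExponentialLength
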